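import Pool.Agent.Helper479.Sink.Faces

/-!
MP_bf58c1_co, Q1 (sinkable rotations of shortest-path triangulations): disproof.

There is a shortest-path triangulation of the sphere with 12 vertices (and 20 faces) none of whose
rotations is sinkable.  The vertices of the example are the normalised vectors obtained from
`(12, 29, 5)` by cyclic shifts of the coordinates and even sign changes; its graph is the graph of
the icosahedron.  All definitions (`S2`, `arc`, `IsSPT`, `IsMorph`, `IsLongitudinal`, `Sinkable`,
`NonPolar`) are in `Pool/Agent/Helper479/Sink/Defs.lean`.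
-/

namespace Pool.Agent.Results.MP_bf58c1_co.NoSinkableRotation

open Helper479.Sink

/-- Some shortest-path triangulation `v` of the sphere (with 12 vertices) has no rotation `R ∈ SO(3)`
such that `R(v)` has no vertex at a pole and is sinkable. -/
theorem result : ∃ (G : SimpleGraph (Fin 12)) (v : Fin 12 → Fin 3 → ℝ), IsSPT G v ∧
    ¬ ∃ R ∈ Matrix.specialOrthogonalGroup (Fin 3) ℝ,
      (∀ i, NonPolar (R.mulVec (v i))) ∧ Sinkable G (fun i => R.mulVec (v i)) := by
  refine ⟨G12, v12, spt12, ?_⟩
  rintro ⟨R, hR, -, hS⟩
  rw [Matrix.mem_specialOrthogonalGroup_iff] at hR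
  exact no_sink R hR.2 hS

end Pool.Agent.Results.MP_bf58c1_co.NoSinkableRotation
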